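import Pool.Agent.Lib.DN.V.V

/-!
# Theorem DR, part V: symbols which are constant on `ℤ[1/2]`, level `2 M` (author helper97)

`thmV2`: `E` is an equivalence relation on the rational numbers with `E (g y) (g 0)` and `E (g (U y)) (g 0)`,
`U y = y / (M y + 1)`, for all `g ∈ Γ₀(2 M)`, `y ∈ ℤ[1/2]` (`M` odd). Then `E (b/d) 0` for all coprime `b`, `d` with
`M ∣ d - 1`. Proof: `Γ₀(M) = Γ₀(2M) ∪ Γ₀(2M) U ∪ Γ₀(2M) U T`, `T y = y + 1` preserves `ℤ[1/2]`.
-/

set_option autoImplicit false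

noncomputable section

namespace Pool.Agent.DR

open Pool.Agent.DN (thmV thmV_den G0)
open DI.V (A2)

/-- Denominators. -/
theorem thmV2_ne {M : ℕ} (ho : Odd M) (h3 : 3 ≤ M) {a b c d : ℤ} (hdet : a * d - b * c = 1)
    (hM : (M : ℤ) ∣ c) {y : ℚ} (hy : A2 y) : (c : ℚ) * y + d ≠ 0 := by
  obtain ⟨u, j, rfl⟩ := hy
  obtain ⟨c', rfl⟩ := hM
  intro h0
  have h2 : ((2 : ℚ) ^ j) ≠ 0 := pow_ne_zero j (by norm_num)
  have h4 : ((M * c' : ℤ) : ℚ) * u + d * 2 ^ j = 0 := by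
    have e : ((M * c' : ℤ) : ℚ) * (u / 2 ^ j) + d = (((M * c' : ℤ) : ℚ) * u + d * 2 ^ j) / 2 ^ j := by
      field_simp
    rw [e, div_eq_zero_iff] at h0
    rcases h0 with h0 | h0
    · exact h0
    · exact absurd h0 h2
  have h5 : (M : ℤ) * c' * u + d * 2 ^ j = 0 := by exact_mod_cast h4
  have h6 : (M : ℤ) ∣ d * 2 ^ j := ⟨-(c' * u), by linarith⟩
  have h7 : IsCoprime (M : ℤ) (d * 2 ^ j) := by
    refine IsCoprime.mul_right ⟨-(b * c'), a, by linarith⟩ ?_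
    have h8 := Nat.isCoprime_iff_coprime.2 (Nat.Coprime.pow_left j (Nat.coprime_two_left.2 ho))
    have h9 : IsCoprime ((2 : ℤ) ^ j) (M : ℤ) := by exact_mod_cast h8
    exact h9.symm
  have h8 : IsUnit (M : ℤ) := h7.isUnit_of_dvd' dvd_rfl h6
  have h9 := Int.isUnit_iff.1 h8
  omega

/-- From level `2 M` to level `M`. -/
theorem thmV2_up {M : ℕ} (ho : Odd M) (h3 : 3 ≤ M) {E : ℚ → ℚ → Prop} (hE : Equivalence E)
    (h1 : ∀ a b c d : ℤ, a * d - b * c = 1 → ((2 * M : ℕ) : ℤ) ∣ c → ∀ y : ℚ, A2 y →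
      E ((a * y + b) / (c * y + d)) (b / d))
    (h2 : ∀ a b c d : ℤ, a * d - b * c = 1 → ((2 * M : ℕ) : ℤ) ∣ c → ∀ y : ℚ, A2 y →
      E ((a * (y / (M * y + 1)) + b) / (c * (y / (M * y + 1)) + d)) (b / d)) :
    ∀ a b c d : ℤ, a * d - b * c = 1 → (M : ℤ) ∣ c → ∀ y : ℚ, A2 y →
      E ((a * y + b) / (c * y + d)) (b / d) := by
  have hMo : Odd (M : ℤ) := by exact_mod_cast ho
  have hne : ∀ {y : ℚ}, A2 y → (M : ℚ) * y + 1 ≠ 0 := by
    intro y hy
    have h4 := thmV2_ne ho h3 (a := 1) (b := 0) (c := M) (d := 1) (by ring) dvd_rfl hy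
    push_cast at h4
    exact h4
  -- the case `U`
  have hU : ∀ a b c d : ℤ, a * d - b * c = 1 → (M : ℤ) ∣ c → Odd c → Odd d → ∀ y : ℚ, A2 y →
      E ((a * y + b) / (c * y + d)) (b / d) := by
    rintro a b c d hdet ⟨c', rfl⟩ hc hd y hy
    have hc' : Odd c' := (Int.odd_mul.1 hc).2
    have h4 : ((2 * M : ℕ) : ℤ) ∣ M * c' - d * M := by
      obtain ⟨x, hx⟩ := hc'.sub_odd hd
      refine ⟨x, ?_⟩
      push_cast
      linear_combination (M : ℤ) * hx
    have h5 := h2 (a - b * M) b (M * c' - d * M) d (by linear_combination hdet) h4 y hy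
    have hn := hne hy
    have e1 : ((a - b * M : ℤ) : ℚ) * (y / (M * y + 1)) + b = (a * y + b) / (M * y + 1) := by
      push_cast
      rw [eq_div_iff hn, add_mul, mul_assoc, div_mul_cancel₀ _ hn]
      ring
    have e2 : ((M * c' - d * M : ℤ) : ℚ) * (y / (M * y + 1)) + d =
        (((M * c' : ℤ) : ℚ) * y + d) / (M * y + 1) := by
      push_cast
      rw [eq_div_iff hn, add_mul, mul_assoc, div_mul_cancel₀ _ hn]
      ring
    rwa [e1, e2, div_div_div_cancel_right₀ hn] at h5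
  intro a b c d hdet hM y hy
  rcases Int.even_or_odd c with hc | hc
  · refine h1 a b c d hdet ?_ y hy
    obtain ⟨c', rfl⟩ := hM
    have hc' : Even c' := by
      rcases Int.even_mul.1 hc with h | h
      · exact absurd h (Int.not_even_iff_odd.2 hMo)
      · exact h
    obtain ⟨x, hx⟩ := hc'
    refine ⟨x, ?_⟩
    push_cast
    rw [hx]
    ring
  rcases Int.even_or_odd d with hd | hd
  · have h4 : ∀ z : ℚ, A2 z → E ((a * z + b) / (c * z + d)) ((b - a : ℤ) / (d - c : ℤ)) := by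
      intro z hz
      have h5 := hU a (b - a) c (d - c) (by linear_combination hdet) hM hc (hd.sub_odd hc) (z + 1)
        (hz.add A2.one)
      have e1 : (a : ℚ) * (z + 1) + ((b - a : ℤ) : ℚ) = a * z + b := by
        push_cast
        ring
      have e2 : (c : ℚ) * (z + 1) + ((d - c : ℤ) : ℚ) = c * z + d := by
        push_cast
        ring
      rwa [e1, e2] at h5
    have h6 := h4 0 A2.zero
    rw [mul_zero, mul_zero, zero_add, zero_add] at h6
    exact hE.trans (h4 y hy) (hE.symm h6)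
  · exact hU a b c d hdet hM hc hd y hy

/-- **Theorem V for symbols of level `2 M` which are constant on `ℤ[1/2]`.** -/
theorem thmV2 {M : ℕ} (ho : Odd M) (h3 : 3 ≤ M) {E : ℚ → ℚ → Prop} (hE : Equivalence E)
    (h1 : ∀ a b c d : ℤ, a * d - b * c = 1 → ((2 * M : ℕ) : ℤ) ∣ c → ∀ y : ℚ, A2 y →
      E ((a * y + b) / (c * y + d)) (b / d))
    (h2 : ∀ a b c d : ℤ, a * d - b * c = 1 → ((2 * M : ℕ) : ℤ) ∣ c → ∀ y : ℚ, A2 y →
      E ((a * (y / (M * y + 1)) + b) / (c * (y / (M * y + 1)) + d)) (b / d))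
    {a b c d : ℤ} (hG : G0 M a b c d) (hd : (M : ℤ) ∣ d - 1) : E (b / d) 0 :=
  thmV ho h3 hE (thmV2_up ho h3 hE h1 h2) hG hd

end Pool.Agent.DR
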